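import Mathlib
import Pool.Agent.Helper34.KreinMore

set_option autoImplicit false

open MeasureTheory

namespace Pool.Agent.Results.MP_54c4ce_an.Jordan

/-- The symmetric open interval `(-A, A)`, for `A` in `(0, ∞]`. -/
def band (A : ENNReal) : Set ℝ := {x : ℝ | ENNReal.ofReal |x| < A}

/-- Value at `t` of the exponential sum `∑ c_x e^{i x t}` (finite sum). -/
noncomputable def apEval (c : ℝ →₀ ℂ) (t : ℝ) : ℂ :=
  ∑ x ∈ c.support, c x * Complex.exp (Complex.I * (x : ℂ) * (t : ℂ))

/-- The functional `Φ_f`, sending `∑ c_x e_x` to `∑ c_x f(x)`. -/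
noncomputable def functional (f : ℝ → ℂ) (c : ℝ →₀ ℂ) : ℂ :=
  ∑ x ∈ c.support, c x * f x

/-- `f` restricted to `(-A, A)` belongs to `R_A`: the functional `Φ_f` is bounded for the sup norm
on exponential sums with frequencies in `(-A, A)`. -/
def MemR (A : ENNReal) (f : ℝ → ℂ) : Prop :=
  ∃ C : ℝ, ∀ c : ℝ →₀ ℂ, (∀ x ∈ c.support, x ∈ band A) →
    ∀ M : ℝ, (∀ t : ℝ, ‖apEval c t‖ ≤ M) → ‖functional f c‖ ≤ C * M

/-- `f` is Hermitian on `(-A, A)`. -/
def Hermitian (A : ENNReal) (f : ℝ → ℂ) : Prop :=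
  ∀ x ∈ band A, f (-x) = (starRingEnd ℂ) (f x)

/-- `f` belongs to the cone `P_A`: it is in `R_A` and `Φ_f(p)` is a nonnegative real number
whenever `p` is real and nonnegative on the line, with frequencies in `(-A, A)`. -/
def MemP (A : ENNReal) (f : ℝ → ℂ) : Prop :=
  MemR A f ∧ ∀ c : ℝ →₀ ℂ, (∀ x ∈ c.support, x ∈ band A) →
    (∀ t : ℝ, (apEval c t).im = 0 ∧ 0 ≤ (apEval c t).re) →
      (functional f c).im = 0 ∧ 0 ≤ (functional f c).re

/-- Sanity: `(-A, A)` is the usual interval for finite `A` and the line for `A = ∞`. -/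
lemma band_ofReal (A : ℝ) : band (ENNReal.ofReal A) = Set.Ioo (-A) A := by
  ext x
  simp only [band, Set.mem_ofPred_eq, Set.mem_Ioo]
  rw [ENNReal.ofReal_lt_ofReal_iff', abs_lt]
  constructor
  · rintro ⟨h, -⟩
    exact h
  · intro h
    exact ⟨h, by linarith [h.1, h.2]⟩

lemma band_top : band ⊤ = Set.univ := by
  ext x
  simp [band]

lemma isOpen_band (A : ENNReal) : IsOpen (band A) := by
  have h : Continuous fun x : ℝ => ENNReal.ofReal |x| :=
    ENNReal.continuous_ofReal.comp continuous_abs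
  exact isOpen_lt h continuous_const

lemma neg_mem_band {A : ENNReal} {x : ℝ} (hx : x ∈ band A) : -x ∈ band A := by
  simpa [band] using hx

open Pool.Agent.Helper34.Krein in
lemma memP_of_vector (P : PosFun) (w : P.Hil) (A : ENNReal) :
    MemP A (fun x => inner ℂ w (P.rep x w)) := by
  refine ⟨⟨‖w‖ * ‖w‖, fun c _ M hM => ?_⟩, fun c _ hc => ?_⟩
  · have h1 := norm_Phi_coeff_le P.contractive w w c M (by
      intro t
      rw [ap_apply]
      exact hM t)
    rw [Phi_apply] at h1
    exact h1
  · have h1 := P.inner_mulH_nonneg (ap c) (by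
      intro t
      rw [ap_apply]
      exact hc t) w
    rw [← P.Phi_inner, Phi_apply] at h1
    exact h1

open Pool.Agent.Helper34.Krein in
/-- Every measurable Hermitian `f` in `R_A` is a difference of two measurable elements of the
cone `P_A`. -/
theorem result (A : ENNReal) (_ : 0 < A) (f : ℝ → ℂ) (hf : MemR A f)
    (hfm : AEMeasurable f (volume.restrict (band A))) (hher : Hermitian A f) :
    ∃ fp fm : ℝ → ℂ,
      (MemP A fp ∧ AEMeasurable fp (volume.restrict (band A))) ∧
      (MemP A fm ∧ AEMeasurable fm (volume.restrict (band A))) ∧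
      ∀ x ∈ band A, f x = fp x - fm x := by
  obtain ⟨C, hC⟩ := hf
  obtain ⟨P, -, hPf⟩ := exists_posFun (band A) f C (by
      intro h hh M hM
      rw [Phi_apply]
      refine hC h ?_ M ?_
      · intro x hx
        exact (Finsupp.mem_supported ℂ h).1 hh hx
      · intro t
        have := hM t
        rw [ap_apply] at this
        exact this)
  obtain ⟨v, -, hrep⟩ := P.exists_vector (band A) f hPf
  have hπ := P.isRep_rep
  have hF : AEStronglyMeasurable (fun l : ℝ => inner ℂ v (P.rep l P.one))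
      (volume.restrict (band A)) := by
    refine hfm.aestronglyMeasurable.congr ?_
    filter_upwards [self_mem_ae_restrict (isOpen_band A).measurableSet] with x hx
    exact hrep x hx
  obtain ⟨uc, u0, u2, hsum, huc, hu0, -, hz⟩ :=
    hπ.decomposition P.one v (isOpen_band A) hF
  have hc1 := (isClosed_Hc P.rep).completeSpace_coe
  have hc0 := (isClosed_H0 P.rep).completeSpace_coe
  set vc := (Hc P.rep).starProjection v with hvcdef
  have hvc : vc ∈ Hc P.rep := Submodule.starProjection_apply_mem _ _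
  have hvc' : v - vc ∈ (Hc P.rep)ᗮ := Submodule.sub_starProjection_mem_orthogonal v
  set v0 := (H0 P.rep).starProjection v with hv0def
  have hv0 : v0 ∈ H0 P.rep := Submodule.starProjection_apply_mem _ _
  have hv0' : v - v0 ∈ (H0 P.rep)ᗮ := Submodule.sub_starProjection_mem_orthogonal v
  -- the coefficient in terms of good vectors
  have hcoef : ∀ x ∈ band A, f x = inner ℂ (vc + v0) (P.rep x (uc + u0)) := by
    intro x hx
    have e1 : (inner ℂ v (P.rep x uc) : ℂ) = inner ℂ vc (P.rep x uc) := by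
      have h1 := (Submodule.mem_orthogonal' _ _).1 hvc' _ (hπ.Hc_invariant huc x)
      rw [inner_sub_left, sub_eq_zero] at h1
      exact h1
    have e2 : (inner ℂ v (P.rep x u0) : ℂ) = inner ℂ v0 (P.rep x u0) := by
      have h1 := (Submodule.mem_orthogonal' _ _).1 hv0' _ (hπ.H0_invariant hu0 x)
      rw [inner_sub_left, sub_eq_zero] at h1
      exact h1
    have e3 : (inner ℂ vc (P.rep x u0) : ℂ) = 0 :=
      hπ.inner_Hc_H0 hvc (hπ.H0_invariant hu0 x)
    have e4 : (inner ℂ v0 (P.rep x uc) : ℂ) = 0 := by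
      rw [← inner_conj_symm, hπ.inner_Hc_H0 (hπ.Hc_invariant huc x) hv0, map_zero]
    rw [hrep x hx, hsum, map_add (P.rep x) (uc + u0) u2, map_add (P.rep x) uc u0,
      inner_add_right, inner_add_right, hz x hx, e1, e2, inner_add_left, inner_add_right,
      inner_add_right, e3, e4]
    ring
  set um := uc + u0 with hum
  set vm := vc + v0 with hvm
  have hgood : ∀ a b : ℂ, ∀ z : P.Hil, AEMeasurable
      (fun x => (inner ℂ z (P.rep x (a • um + b • vm)) : ℂ)) (volume.restrict (band A)) := by
    intro a b z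
    have e : a • um + b • vm = (a • uc + b • vc) + (a • u0 + b • v0) := by
      rw [hum, hvm, smul_add, smul_add]
      abel
    rw [e]
    exact (aestronglyMeasurable_good
      (Submodule.add_mem _ (Submodule.smul_mem _ _ huc) (Submodule.smul_mem _ _ hvc))
      (Submodule.add_mem _ (Submodule.smul_mem _ _ hu0) (Submodule.smul_mem _ _ hv0))
      z).aemeasurable.restrict
  refine ⟨fun x => inner ℂ ((1 / 2 : ℂ) • um + (1 / 2 : ℂ) • vm)
      (P.rep x ((1 / 2 : ℂ) • um + (1 / 2 : ℂ) • vm)),
    fun x => inner ℂ ((1 / 2 : ℂ) • um + (-1 / 2 : ℂ) • vm)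
      (P.rep x ((1 / 2 : ℂ) • um + (-1 / 2 : ℂ) • vm)),
    ⟨memP_of_vector P _ A, hgood _ _ _⟩, ⟨memP_of_vector P _ A, hgood _ _ _⟩, ?_⟩
  intro x hx
  have h1 : (inner ℂ um (P.rep x vm) : ℂ) = f x := by
    rw [hπ.inner_right, ← inner_conj_symm, ← hcoef (-x) (neg_mem_band hx), hher x hx]
    simp
  have h2 := hcoef x hx
  simp only [map_add, map_smul, inner_add_left, inner_add_right, inner_smul_left,
    inner_smul_right]
  rw [h1, ← h2]
  simp only [map_div₀, map_one, map_ofNat, map_neg]
  ring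

end Pool.Agent.Results.MP_54c4ce_an.Jordan
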